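import Pool.Agent.W670.ML.Defs

set_option autoImplicit false

namespace Pool.Agent.W903.ML

open Pool.Agent.W670.ML NumberField

theorem uni (h1 : S_CMP) (h2 : S_UB) (h3 : S_MI) : S_UNI := by
  intro hU d n G hn hT m hm ε hε
  rcases Nat.eq_zero_or_pos d with hd | hd
  · refine ⟨1, one_pos, ?_⟩
    intro K _ _ hK X hX
    have := Module.finrank_pos (R := ℚ) (M := K)
    omega
  · have hN : 2 ≤ n * d := by nlinarith
    obtain ⟨hm1, -, -⟩ := (h3 n G hn hT).2 m hm
    obtain ⟨c, hc, hcc⟩ := h2 hU (n * d) m hN hm1 ε hε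
    refine ⟨c, hc, ?_⟩
    intro K _ _ hK X hX
    subst hK
    have hdisc : 0 < ((discr K).natAbs : ℝ) := by
      have : (discr K).natAbs ≠ 0 := by
        rw [Ne, Int.natAbs_eq_zero]
        exact discr_ne_zero K
      exact_mod_cast Nat.pos_of_ne_zero this
    have hY : 0 < ((discr K).natAbs : ℝ) ^ n * X := mul_pos (pow_pos hdisc n) hX
    have hcmp := h1 K n G hn hT m hm X
    refine le_trans ?_ (hcc _ hY)
    exact_mod_cast hcmp

end Pool.Agent.W903.ML
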